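import Mathlib

/-!
# [H36 TQ Liou] THEOREM Q (MP_e49dc9_ag): the values of integral quadratic forms at a cubic irrationality

`mat_low`: an integral matrix `M` with `M v = lam v`, where the entries of the real vector `v` are linearly independent
over the integers, `lam ≠ 0`: `det M ≠ 0` (otherwise `u M = 0`, `u ≠ 0`, so `lam (u . v) = 0`), and
`lam (adj(M) v) = det(M) v`, so `|lam|` is at least a constant divided by the `d`-th power of the size of `M`.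

`liou`: `s` irrational with `x s ^ 3 + 3 y s ^ 2 + 3 z s + w = 0`, `x ≠ 0`, then `a₂ + 2 s a₁ + s ^ 2 a₀` is zero or at least
`c / H ^ 2`, if `|a i| ≤ H`: apply `mat_low` to `v = (1, s, s ^ 2)` or to `v = (1, s)`.
-/

set_option autoImplicit false

namespace Pool.Agent.H36.TQ

open Matrix

theorem mat_low {d : ℕ} (v : Fin (d + 1) → ℝ) (hv : ∀ u : Fin (d + 1) → ℤ, ∑ i, (u i : ℝ) * v i = 0 → u = 0) :
    ∃ c : ℝ, 0 < c ∧ ∀ (M : Matrix (Fin (d + 1)) (Fin (d + 1)) ℤ) (B lam : ℝ), (∀ i j, |(M i j : ℝ)| ≤ B) →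
      (M.map (Int.cast : ℤ → ℝ)) *ᵥ v = lam • v → lam ≠ 0 → c ≤ |lam| * B ^ d := by
  have hv0 : v 0 ≠ 0 := by
    intro h0
    have h1 := hv (Pi.single 0 1) (by
      rw [Finset.sum_eq_single (0 : Fin (d + 1))]
      · rw [h0, mul_zero]
      · intro i _ hi
        rw [Pi.single_eq_of_ne hi]
        simp
      · intro h2
        exact absurd (Finset.mem_univ _) h2)
    have h2 := congrFun h1 0
    simp at h2
  obtain ⟨V, hV⟩ : ∃ V : ℝ, V = ∑ i, |v i| := ⟨_, rfl⟩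
  have hVpos : 0 < V := by
    rw [hV]
    exact Finset.sum_pos' (fun i _ => abs_nonneg _) ⟨0, Finset.mem_univ _, abs_pos.2 hv0⟩
  refine ⟨|v 0| / (d.factorial * V), by have := abs_pos.2 hv0; positivity, ?_⟩
  intro M B lam hM hMv hlam
  have hB : 0 ≤ B := (abs_nonneg _).trans (hM 0 0)
  obtain ⟨R, hR⟩ : ∃ R : Matrix (Fin (d + 1)) (Fin (d + 1)) ℝ, R = M.map (Int.cast : ℤ → ℝ) := ⟨_, rfl⟩
  rw [← hR] at hMv
  -- the determinant is not zero
  have hdet : M.det ≠ 0 := by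
    intro h0
    obtain ⟨u, hu, huM⟩ := Matrix.exists_vecMul_eq_zero_iff.2 h0
    apply hu
    apply hv
    have h1 : (fun i => (u i : ℝ)) ᵥ* R = 0 := by
      funext j
      have h2 := congrFun huM j
      simp only [Matrix.vecMul, dotProduct, Pi.zero_apply] at h2 ⊢
      rw [hR]
      simp only [Matrix.map_apply]
      exact_mod_cast h2
    have h2 : (fun i => (u i : ℝ)) ⬝ᵥ (R *ᵥ v) = 0 := by
      rw [Matrix.dotProduct_mulVec, h1, zero_dotProduct]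
    rw [hMv, dotProduct_smul, smul_eq_mul] at h2
    exact (mul_eq_zero.1 h2).resolve_left hlam
  have hdR : R.det = (M.det : ℝ) := by
    rw [hR]
    exact (Int.cast_det M).symm
  have hone : 1 ≤ |R.det| := by
    rw [hdR]
    exact_mod_cast Int.one_le_abs hdet
  have hadj : lam * (R.adjugate *ᵥ v) 0 = R.det * v 0 := by
    have h1 : R.adjugate *ᵥ (R *ᵥ v) = R.det • v := by
      rw [Matrix.mulVec_mulVec, Matrix.adjugate_mul, Matrix.smul_mulVec, Matrix.one_mulVec]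
    rw [hMv, Matrix.mulVec_smul] at h1
    have h2 := congrFun h1 0
    simpa using h2
  have hsub : ∀ j, |R.adjugate 0 j| ≤ d.factorial * B ^ d := by
    intro j
    rw [Matrix.adjugate_fin_succ_eq_det_submatrix]
    rw [abs_mul, abs_pow, abs_neg, abs_one, one_pow, one_mul]
    have h1 := Matrix.det_le (abv := AbsoluteValue.abs) (A := R.submatrix j.succAbove (0 : Fin (d + 1)).succAbove)
      (x := B) (fun i i' => by
        rw [Matrix.submatrix_apply, hR, Matrix.map_apply]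
        exact hM _ _)
    rw [Fintype.card_fin, nsmul_eq_mul] at h1
    exact h1
  have hub : |(R.adjugate *ᵥ v) 0| ≤ d.factorial * V * B ^ d := by
    have h1 : (R.adjugate *ᵥ v) 0 = ∑ j, R.adjugate 0 j * v j := rfl
    rw [h1]
    refine (Finset.abs_sum_le_sum_abs _ _).trans ?_
    have h2 : ∀ j ∈ Finset.univ, |R.adjugate 0 j * v j| ≤ (d.factorial * B ^ d) * |v j| := fun j _ => by
      rw [abs_mul]
      exact mul_le_mul_of_nonneg_right (hsub j) (abs_nonneg _)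
    refine (Finset.sum_le_sum h2).trans ?_
    rw [← Finset.mul_sum, ← hV]
    exact le_of_eq (by ring)
  have hfin : |v 0| ≤ |lam| * (d.factorial * V * B ^ d) := by
    calc |v 0| ≤ |R.det| * |v 0| := le_mul_of_one_le_left (abs_nonneg _) hone
      _ = |lam| * |(R.adjugate *ᵥ v) 0| := by rw [← abs_mul, ← abs_mul, hadj]
      _ ≤ _ := mul_le_mul_of_nonneg_left hub (abs_nonneg _)
  rw [div_le_iff₀ (by positivity)]
  calc |v 0| ≤ |lam| * (d.factorial * V * B ^ d) := hfin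
    _ = |lam| * B ^ d * (d.factorial * V) := by ring

/-- multiplication by `x s` is integral on `v` -/
theorem quad_low {d : ℕ} (v : Fin (d + 1) → ℝ) (hv : ∀ u : Fin (d + 1) → ℤ, ∑ i, (u i : ℝ) * v i = 0 → u = 0)
    {s : ℝ} {x : ℤ} (hx : x ≠ 0) (N : Matrix (Fin (d + 1)) (Fin (d + 1)) ℤ)
    (hN : (N.map (Int.cast : ℤ → ℝ)) *ᵥ v = (x * s) • v) :
    ∃ c : ℝ, 0 < c ∧ ∀ (a₀ a₁ a₂ : ℤ) (H : ℝ), |(a₀ : ℝ)| ≤ H → |(a₁ : ℝ)| ≤ H → |(a₂ : ℝ)| ≤ H →
      (a₂ : ℝ) + 2 * s * a₁ + s ^ 2 * a₀ ≠ 0 → c ≤ |(a₂ : ℝ) + 2 * s * a₁ + s ^ 2 * a₀| * H ^ d := by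
  obtain ⟨c, hc, h⟩ := mat_low v hv
  have hxR : (x : ℝ) ≠ 0 := by exact_mod_cast hx
  obtain ⟨Q, hQ⟩ : ∃ Q : ℝ, Q = ∑ i, ∑ j, (|((N * N) i j : ℝ)| + 2 * |(x : ℝ)| * |(N i j : ℝ)| + (x : ℝ) ^ 2) := ⟨_, rfl⟩
  have hQij : ∀ i j, |((N * N) i j : ℝ)| + 2 * |(x : ℝ)| * |(N i j : ℝ)| + (x : ℝ) ^ 2 ≤ Q := by
    intro i j
    rw [hQ]
    refine le_trans ?_ (Finset.single_le_sum (f := fun i => ∑ j, (|((N * N) i j : ℝ)| + 2 * |(x : ℝ)| * |(N i j : ℝ)| +
      (x : ℝ) ^ 2)) (fun i _ => Finset.sum_nonneg fun j _ => by positivity) (Finset.mem_univ i))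
    exact Finset.single_le_sum (f := fun j => (|((N * N) i j : ℝ)| + 2 * |(x : ℝ)| * |(N i j : ℝ)| +
      (x : ℝ) ^ 2)) (fun j _ => by positivity) (Finset.mem_univ j)
  have hQpos : 0 < Q := lt_of_lt_of_le (by positivity) (hQij 0 0)
  refine ⟨c / ((x : ℝ) ^ 2 * Q ^ d), by positivity, ?_⟩
  intro a₀ a₁ a₂ H h0 h1 h2 hne
  have hH : 0 ≤ H := (abs_nonneg _).trans h0
  obtain ⟨M, hM⟩ : ∃ M : Matrix (Fin (d + 1)) (Fin (d + 1)) ℤ, M = a₀ • (N * N) + (2 * a₁ * x) • N +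
    (a₂ * x ^ 2) • (1 : Matrix (Fin (d + 1)) (Fin (d + 1)) ℤ) := ⟨_, rfl⟩
  have key := h M (H * Q) ((x : ℝ) ^ 2 * ((a₂ : ℝ) + 2 * s * a₁ + s ^ 2 * a₀)) (fun i j => by
    have e : (M i j : ℝ) = a₀ * ((N * N) i j : ℝ) + 2 * a₁ * x * (N i j : ℝ) +
        a₂ * (x : ℝ) ^ 2 * ((1 : Matrix (Fin (d + 1)) (Fin (d + 1)) ℤ) i j : ℝ) := by
      rw [hM]
      simp only [Matrix.add_apply, Matrix.smul_apply, smul_eq_mul]
      push_cast
      ring
    have e1 : |((1 : Matrix (Fin (d + 1)) (Fin (d + 1)) ℤ) i j : ℝ)| ≤ 1 := by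
      rw [Matrix.one_apply]
      split_ifs <;> simp
    rw [e]
    have t1 : |(a₀ : ℝ) * ((N * N) i j : ℝ)| ≤ H * |((N * N) i j : ℝ)| := by
      rw [abs_mul]
      exact mul_le_mul_of_nonneg_right h0 (abs_nonneg _)
    have t2 : |2 * (a₁ : ℝ) * x * (N i j : ℝ)| ≤ H * (2 * |(x : ℝ)| * |(N i j : ℝ)|) := by
      rw [abs_mul, abs_mul, abs_mul, abs_two]
      have : 2 * |(a₁ : ℝ)| * |(x : ℝ)| * |(N i j : ℝ)| = |(a₁ : ℝ)| * (2 * |(x : ℝ)| * |(N i j : ℝ)|) := by ring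
      rw [this]
      exact mul_le_mul_of_nonneg_right h1 (by positivity)
    have t3 : |(a₂ : ℝ) * (x : ℝ) ^ 2 * ((1 : Matrix (Fin (d + 1)) (Fin (d + 1)) ℤ) i j : ℝ)| ≤
        H * (x : ℝ) ^ 2 := by
      rw [abs_mul, abs_mul, abs_pow, sq_abs]
      calc |(a₂ : ℝ)| * (x : ℝ) ^ 2 * |((1 : Matrix (Fin (d + 1)) (Fin (d + 1)) ℤ) i j : ℝ)|
          ≤ |(a₂ : ℝ)| * (x : ℝ) ^ 2 * 1 := mul_le_mul_of_nonneg_left e1 (by positivity)
        _ ≤ H * (x : ℝ) ^ 2 := by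
          rw [mul_one]
          exact mul_le_mul_of_nonneg_right h2 (by positivity)
    have t4 := abs_add_le ((a₀ : ℝ) * ((N * N) i j : ℝ)) (2 * (a₁ : ℝ) * x * (N i j : ℝ))
    have t5 := abs_add_le ((a₀ : ℝ) * ((N * N) i j : ℝ) + 2 * (a₁ : ℝ) * x * (N i j : ℝ))
      ((a₂ : ℝ) * (x : ℝ) ^ 2 * ((1 : Matrix (Fin (d + 1)) (Fin (d + 1)) ℤ) i j : ℝ))
    have t6 := mul_le_mul_of_nonneg_left (hQij i j) hH
    have t7 : H * (|((N * N) i j : ℝ)| + 2 * |(x : ℝ)| * |(N i j : ℝ)| + (x : ℝ) ^ 2) =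
        H * |((N * N) i j : ℝ)| + H * (2 * |(x : ℝ)| * |(N i j : ℝ)|) + H * (x : ℝ) ^ 2 := by ring
    rw [t7] at t6
    linarith) (by
    have e : M.map (Int.cast : ℤ → ℝ) = (a₀ : ℝ) • ((N.map (Int.cast : ℤ → ℝ)) * (N.map (Int.cast : ℤ → ℝ))) +
        (2 * a₁ * x : ℝ) • (N.map (Int.cast : ℤ → ℝ)) + (a₂ * (x : ℝ) ^ 2) • (1 : Matrix _ _ ℝ) := by
      ext i j
      rw [hM]
      simp only [Matrix.map_apply, Matrix.add_apply, Matrix.smul_apply, smul_eq_mul, Matrix.mul_apply, Matrix.one_apply]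
      push_cast
      split_ifs <;> simp
    rw [e, Matrix.add_mulVec, Matrix.add_mulVec, Matrix.smul_mulVec, Matrix.smul_mulVec, Matrix.smul_mulVec,
      ← Matrix.mulVec_mulVec, hN, Matrix.mulVec_smul, hN, Matrix.one_mulVec, smul_smul, smul_smul, smul_smul,
      ← add_smul, ← add_smul]
    congr 1
    ring) (mul_ne_zero (pow_ne_zero _ hxR) hne)
  rw [abs_mul, abs_pow, sq_abs, mul_pow] at key
  rw [div_le_iff₀ (by positivity)]
  calc c ≤ _ := key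
    _ = _ := by ring

/-- **the values of integral quadratic forms at a cubic irrationality** -/
theorem liou {s : ℝ} (hs : Irrational s) {x y z w : ℤ} (hx : x ≠ 0)
    (hf : (x : ℝ) * s ^ 3 + 3 * y * s ^ 2 + 3 * z * s + w = 0) :
    ∃ c : ℝ, 0 < c ∧ ∀ (a₀ a₁ a₂ : ℤ) (H : ℝ), 1 ≤ H → |(a₀ : ℝ)| ≤ H → |(a₁ : ℝ)| ≤ H → |(a₂ : ℝ)| ≤ H →
      (a₂ : ℝ) + 2 * s * a₁ + s ^ 2 * a₀ ≠ 0 → c ≤ |(a₂ : ℝ) + 2 * s * a₁ + s ^ 2 * a₀| * H ^ 2 := by
  by_cases hq : ∀ u : Fin 3 → ℤ, ∑ i, (u i : ℝ) * (![1, s, s ^ 2] : Fin 3 → ℝ) i = 0 → u = 0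
  · obtain ⟨c, hc, h⟩ := quad_low (![1, s, s ^ 2] : Fin 3 → ℝ) hq (s := s) hx
      !![0, x, 0; 0, 0, x; -w, -3 * z, -3 * y] (by
        ext i
        fin_cases i
        · simp [Matrix.mulVec, dotProduct, Fin.sum_univ_three]
        · simp [Matrix.mulVec, dotProduct, Fin.sum_univ_three]
          ring
        · simp [Matrix.mulVec, dotProduct, Fin.sum_univ_three]
          linarith)
    exact ⟨c, hc, fun a₀ a₁ a₂ H _ h0 h1 h2 hne => h a₀ a₁ a₂ H h0 h1 h2 hne⟩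
  · push Not at hq
    obtain ⟨u, hu, hu0⟩ := hq
    rw [Fin.sum_univ_three] at hu
    replace hu : (u 0 : ℝ) + u 1 * s + u 2 * s ^ 2 = 0 := by
      rw [← hu]
      simp
    have hirr : ∀ a b : ℤ, (a : ℝ) + b * s = 0 → a = 0 ∧ b = 0 := by
      intro a b hab
      by_cases hb : b = 0
      · subst hb
        refine ⟨?_, rfl⟩
        have : (a : ℝ) = 0 := by push_cast at hab; linarith
        exact_mod_cast this
      · exfalso
        apply hs
        refine ⟨(-a : ℚ) / b, ?_⟩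
        have hbR : (b : ℝ) ≠ 0 := by exact_mod_cast hb
        push_cast
        field_simp
        linarith
    have hu2 : u 2 ≠ 0 := by
      intro h2
      rw [h2] at hu
      obtain ⟨h3, h4⟩ := hirr (u 0) (u 1) (by push_cast at hu; linarith)
      apply hu0
      ext i
      fin_cases i
      · exact h3
      · exact h4
      · exact h2
    obtain ⟨c, hc, h⟩ := quad_low (![1, s] : Fin 2 → ℝ) (fun t ht => by
        rw [Fin.sum_univ_two] at ht
        simp only [Matrix.cons_val_zero, Matrix.cons_val_one] at ht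
        obtain ⟨h3, h4⟩ := hirr (t 0) (t 1) (by linarith)
        ext i
        fin_cases i
        · exact h3
        · exact h4) (s := s) hu2
      !![0, u 2; -(u 0), -(u 1)] (by
        ext i
        fin_cases i
        · simp [Matrix.mulVec, dotProduct, Fin.sum_univ_two]
        · simp [Matrix.mulVec, dotProduct, Fin.sum_univ_two]
          linarith [hu, pow_two s, mul_assoc (u 2 : ℝ) s s])
    refine ⟨c, hc, fun a₀ a₁ a₂ H hH h0 h1 h2 hne => (h a₀ a₁ a₂ H h0 h1 h2 hne).trans ?_⟩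
    exact mul_le_mul_of_nonneg_left (pow_le_pow_right₀ hH (by norm_num)) (abs_nonneg _)

end Pool.Agent.H36.TQ
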