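import Pool.Agent.H36.TQ.Exc
import Pool.Agent.H36.TQ.Liou
import Pool.Agent.H39.TQ.Itf
import Pool.Agent.H32.TK.Surf

/-!
# [H36 TQ Str] THEOREM Q (MP_e49dc9_ag), chapters (3) and (8)

`low_prm`: a prime surface `S` with `T(A,A,S) ≤ H`, `H ≥ 1`, has `T(p,p,S) = 0` or `T(p,p,S) ≥ c / H ^ 2` (`liou`; the integers
`T(A,D,S)`, `T(D,D,S)` are bounded by a constant times `H`, `abs_T`).

`star_q`: `W = A ^ a * D ^ b`, `e = a - s b`, `b e ≤ C₀`.  If a section of `W` vanishes to order `r > m` along a prime surface `S`, then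
`r T(p,p,S) ≤ T(p,p,W) = e T(p,p,A)` and `r T(A,A,S) ≤ T(A,A,W) ≤ C b`, so `T(p,p,S) = 0` if `m ^ 3 ≥ C₂ b`.  Infinitely many such
surfaces: `exists_pf`, `exc_of`.

`fin_q`: `T(W,W,S) = b ^ 2 T(p,p,S) + 2 b e T(p,A,S) + e ^ 2 T(A,A,S) ≤ Γ` for infinitely many `S`: for fixed `W` a subfamily is
numerically constant (`exists_pf`), so `T(A,S,S) ≥ 0`, and the light cone of `T(A,.,.)` gives `T(A,A,S) ≤ C T(p,A,S) ≤ C Γ / (2 c₀)`.
So `T(p,p,S) ≤ Γ / b ^ 2` is zero for large `b`.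
-/

set_option autoImplicit false

namespace Pool.Agent.H36.TQ

open Pool.Agent.H54.RV Pool.Agent.H83.TU Pool.Agent.H83.TK Pool.Agent.H24.VP Pool.Agent.H39.TQ Pool.Agent.H24.TV

variable {k K : Type} [Field k] [Field K] [Algebra k K] {X : Mod k K}
  {T : Cart X → Cart X → Cart X → ℝ} {l : Cart X → ℝ} {c : ℝ} {A D : Cart X} {s : ℝ}

theorem low_prm [CharZero k] [T0Space X.P] (h : Hyp X) (ht : Thr T l c A D s) :
    ∃ c₁ : ℝ, 0 < c₁ ∧ ∀ (P : PDiv X) (S : Cart X), SPr X P.η S → ∀ H : ℝ, T A A S ≤ H →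
      tpp T A D s S ≠ 0 → c₁ ≤ tpp T A D s S * H ^ 2 := by
  have hT := ht.hr.tri
  obtain ⟨x, hx⟩ := t_int ht.hr h.amp A A A
  obtain ⟨y, hy⟩ := t_int ht.hr h.amp A A D
  obtain ⟨z, hz⟩ := t_int ht.hr h.amp A D D
  obtain ⟨w, hw⟩ := t_int ht.hr h.amp D D D
  have hx0 : x ≠ 0 := by
    intro h0
    have := pos_amp h ht.hr ht.hA ht.hA ht.hA
    rw [hx, h0] at this
    simp at this
  have h3 := ht.p3
  unfold tp3 at h3
  rw [hx, hy, hz, hw] at h3
  obtain ⟨c₀, hc₀, hli⟩ := liou (x := x) (y := y) (z := z) (w := w) ht.irr hx0 (by linarith)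
  obtain ⟨n, hn⟩ := exists_n h.var ht.hA (fun _ : Unit => D)
  obtain ⟨hn1, hn2⟩ := hn ()
  obtain ⟨B, hB⟩ : ∃ B : ℝ, B = 3 * (n : ℝ) ^ 2 + n + 1 := ⟨_, rfl⟩
  have hnn : (0 : ℝ) ≤ n := Nat.cast_nonneg n
  have hB1 : 1 ≤ B := by
    rw [hB]
    have : 0 ≤ 3 * (n : ℝ) ^ 2 := by positivity
    linarith
  refine ⟨c₀ / B ^ 2, by positivity, fun P S hS H hH hne => ?_⟩
  have hpos := pos_prm h ht.hr ht.hA ht.hA P hS
  obtain ⟨a₀, h0⟩ := t_int ht.hr h.amp A A S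
  obtain ⟨a₁, h1⟩ := t_int ht.hr h.amp A D S
  obtain ⟨a₂, h2⟩ := t_int ht.hr h.amp D D S
  have hH1 : 1 ≤ H := by
    rw [h0] at hpos hH
    have h4 : (1 : ℤ) ≤ a₀ := by exact_mod_cast hpos
    have h5 : (1 : ℝ) ≤ a₀ := by exact_mod_cast h4
    linarith
  have hBH : 1 ≤ B * H := one_le_mul_of_one_le_of_one_le hB1 hH1
  have b0 : |(a₀ : ℝ)| ≤ B * H := by
    rw [← h0, abs_of_pos hpos]
    have : 1 * H ≤ B * H := mul_le_mul_of_nonneg_right hB1 (by linarith)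
    linarith
  have b1 : |(a₁ : ℝ)| ≤ B * H := by
    rw [← h1]
    have p1 := pos_prm h ht.hr ht.hA hn1 P hS
    have p2 := pos_prm h ht.hr ht.hA hn2 P hS
    rw [hT.add2, hT.pow2] at p1 p2
    rw [hT.inv2] at p2
    have p3 : |T A D S| ≤ n * T A A S := abs_le.2 ⟨by linarith, by linarith⟩
    refine p3.trans (mul_le_mul ?_ hH hpos.le (by linarith))
    rw [hB]
    have : 0 ≤ 3 * (n : ℝ) ^ 2 := by positivity
    linarith
  have b2 : |(a₂ : ℝ)| ≤ B * H := by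
    rw [← h2]
    refine (abs_T h ht.hr ht.hA hn1 hn2 hn1 hn2 P hS).trans (mul_le_mul ?_ hH hpos.le (by linarith))
    rw [hB]
    linarith
  have e : tpp T A D s S = (a₂ : ℝ) + 2 * s * a₁ + s ^ 2 * a₀ := by
    unfold tpp
    rw [h0, h1, h2]
  have h6 := hli a₀ a₁ a₂ (B * H) hBH b0 b1 b2 (by rw [← e]; exact hne)
  rw [← e, abs_of_nonneg (tpp_eff h ht hS.eff)] at h6
  rw [div_le_iff₀ (by positivity)]
  calc c₀ ≤ _ := h6
    _ = _ := by ring

/-- the order of a section along a prime surface -/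
theorem ord_split [CharZero k] [T0Space X.P] (h : Hyp X) (hr : RR T l c) (W : Cart X) (P : PDiv X) {S : Cart X}
    (hS : SPr X P.η S) {f : K} (hf : f ≠ 0) (hW : Sec W 1 f) {m : ℕ} (hm : (m : ℤ) < P.p.ord (f * W.eq P.η)) :
    ∃ (r : ℕ) (E : Cart X), m < r ∧ Effective E ∧ ∀ U V, T U V W = r * T U V S + T U V E := by
  have hT := hr.tri
  have hE : Effective (prin X f hf * W) := fun x => by
    have h1 := hW x
    rw [pow_one] at h1
    rw [mul_eq]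
    exact h1
  have hq : (prin X f hf * W).eq P.η = f * W.eq P.η := rfl
  obtain ⟨r, hr'⟩ := Int.eq_ofNat_of_zero_le ((Int.natCast_nonneg m).trans hm.le)
  obtain ⟨E, hE1, -, hE2⟩ := Pool.Agent.H32.TK.pow_split h.var P hS r _ hE (by rw [hq]; exact hr')
  refine ⟨r, E, by omega, hE1, fun U V => ?_⟩
  have h1 : T U V (prin X f hf * W) = T U V (S ^ r * E) := by rw [hE2]
  rw [hT.add3, hT.add3, hT.pow3] at h1
  have h2 : T U V (prin X f hf) = 0 := by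
    rw [tri_rot hT]
    exact numz_T h hr (numz_prin f hf) U V
  linarith

theorem star_q [CharZero k] [T0Space X.P] (h : Hyp X) {ρ : ℕ} (ν : Cart X →* Multiplicative (Fin ρ → ℤ))
    (hν : ∀ D, ν D = 1 → NumZ D) (ht : Thr T l c A D s) (hE : ¬ Exc T A D s) : StrQ A D s := by
  have hT := ht.hr.tri
  obtain ⟨c₁, hc₁, hlow⟩ := low_prm h ht
  obtain ⟨α, hα⟩ : ∃ α, α = tpp T A D s A := ⟨_, rfl⟩
  obtain ⟨β, hβ⟩ : ∃ β, β = tp T A D s A A := ⟨_, rfl⟩
  obtain ⟨κ, hκ⟩ : ∃ κ, κ = T A A A := ⟨_, rfl⟩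
  have hα0 : 0 < α := by rw [hα]; exact tppA_pos h ht
  have hβ0 : 0 ≤ β := by rw [hβ]; exact tp_amp h ht ht.hA ht.hA
  have hκ0 : 0 < κ := by rw [hκ]; exact pos_amp h ht.hr ht.hA ht.hA ht.hA
  intro C₀
  obtain ⟨M, hM⟩ : ∃ M : ℝ, M = β + |C₀| * κ := ⟨_, rfl⟩
  have hM0 : 0 ≤ M := by rw [hM]; positivity
  -- `C₂` with `|C₀| α M ^ 2 / C₂ < c₁`
  obtain ⟨C₂, hC₂⟩ : ∃ C₂ : ℝ, C₂ = |C₀| * α * M ^ 2 / c₁ + 1 := ⟨_, rfl⟩
  have hC₂0 : 0 < C₂ := by rw [hC₂]; positivity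
  refine ⟨C₂, fun a b hb hsb hbe m hm => ?_⟩
  have hbR : (0 : ℝ) < b := by exact_mod_cast hb
  have hb1 : (1 : ℝ) ≤ b := by exact_mod_cast hb
  obtain ⟨e, he⟩ : ∃ e : ℝ, e = a - s * b := ⟨_, rfl⟩
  have he0 : 0 < e := by rw [he]; linarith
  rw [← he] at hbe
  have hC0 : |C₀| = C₀ := abs_of_pos (lt_of_lt_of_le (by positivity) hbe)
  have heC : e ≤ |C₀| := by
    rw [hC0]
    exact (le_mul_of_one_le_left he0.le hb1).trans hbe
  have hW := ht.amp a b hb hsb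
  have hm3 : 0 < (m : ℝ) ^ 3 := lt_of_lt_of_le (by positivity) hm
  have hm0 : (0 : ℝ) < m := by
    rcases Nat.eq_zero_or_pos m with h1 | h1
    · rw [h1] at hm3
      norm_num at hm3
    · exact_mod_cast h1
  obtain ⟨W, hWd⟩ : ∃ W, W = A ^ a * D ^ b := ⟨_, rfl⟩
  -- the two bounds
  have hTAA : T A A W = b * β + e * κ := by
    rw [hWd, tri_rot hT A A, w_T hT s, ← hβ, ← hκ, ← he]
  have htpp : tpp T A D s W = e * α := by
    rw [hWd]
    have e1 : tpp T A D s (A ^ a * D ^ b) = a * tpp T A D s A + b * tpp T A D s D := by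
      unfold tpp
      simp only [hT.add3, hT.zpow3]
      ring
    rw [e1, tppD ht, ← hα, he]
    ring
  rw [← hWd]
  refine ⟨{η | ∃ P : PDiv X, P.η = η ∧ ∃ f : K, f ≠ 0 ∧ Sec W 1 f ∧ (m : ℤ) < P.p.ord (f * W.eq P.η)}, ?_, ?_⟩
  · by_contra hinf
    apply hE
    obtain ⟨C, hC, hQ⟩ := exists_pf h ht.hr ν hν ht.hA (b * M / m)
      (fun S => T A A S ≤ b * M / m ∧ tpp T A D s S = 0) (fun S hS => hS.1) hinf (by
        rintro η ⟨P, hP, f, hf, hfW, hord⟩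
        refine ⟨P, hP, ?_⟩
        obtain ⟨S, hS⟩ := pdiv_spr h P
        refine ⟨S, hS, ?_⟩
        obtain ⟨r, E, hr, hE1, hE2⟩ := ord_split h ht.hr W P hS hf hfW hord
        have hrm : (m : ℝ) ≤ r := by exact_mod_cast hr.le
        have p0 := pos_prm h ht.hr ht.hA ht.hA P hS
        have p1 : m * T A A S ≤ b * β + e * κ := by
          have q1 := hE2 A A
          have q2 := nn_eff h ht.hr (nf_ample h.var ht.hA) ht.hA hE1
          have q3 : m * T A A S ≤ r * T A A S := mul_le_mul_of_nonneg_right hrm p0.le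
          rw [← hTAA]
          linarith
        have p2 : b * β + e * κ ≤ b * M := by
          rw [hM]
          have q1 : e * κ ≤ |C₀| * κ := mul_le_mul_of_nonneg_right heC hκ0.le
          have q2 : |C₀| * κ ≤ b * (|C₀| * κ) := le_mul_of_one_le_left (by positivity) hb1
          linarith
        have p3 : T A A S ≤ b * M / m := by
          rw [le_div_iff₀ hm0]
          linarith
        refine ⟨p3, ?_⟩
        by_contra hne
        have p4 := hlow P S hS _ p3 hne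
        have p5 : m * tpp T A D s S ≤ e * α := by
          have q1 : tpp T A D s W = r * tpp T A D s S + tpp T A D s E := by
            unfold tpp
            rw [hE2 A A, hE2 A D, hE2 D D]
            ring
          have q2 := tpp_eff h ht hE1
          have q3 : m * tpp T A D s S ≤ r * tpp T A D s S :=
            mul_le_mul_of_nonneg_right hrm (tpp_eff h ht hS.eff)
          rw [← htpp]
          linarith
        -- `m ^ 3 c₁ ≤ (m tpp) (b M) ^ 2 ≤ b e α b M ^ 2`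
        have p6 : (m : ℝ) ^ 3 * c₁ ≤ b * (|C₀| * α * M ^ 2) := by
          calc (m : ℝ) ^ 3 * c₁ ≤ (m : ℝ) ^ 3 * (tpp T A D s S * (b * M / m) ^ 2) :=
                mul_le_mul_of_nonneg_left p4 hm3.le
            _ = (m * tpp T A D s S) * (b * M) ^ 2 := by
                field_simp
            _ ≤ (e * α) * (b * M) ^ 2 := mul_le_mul_of_nonneg_right p5 (by positivity)
            _ = b * ((b * e) * α * M ^ 2) := by ring
            _ ≤ b * (|C₀| * α * M ^ 2) := by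
                apply mul_le_mul_of_nonneg_left _ hbR.le
                apply mul_le_mul_of_nonneg_right _ (by positivity)
                apply mul_le_mul_of_nonneg_right _ hα0.le
                rw [hC0]
                exact hbe
        have p7 : C₂ * b * c₁ ≤ (m : ℝ) ^ 3 * c₁ := mul_le_mul_of_nonneg_right hm hc₁.le
        have p8 : C₂ * b * c₁ = b * (|C₀| * α * M ^ 2) + b * c₁ := by
          rw [hC₂]
          field_simp
        have p9 : 0 < b * c₁ := by positivity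
        linarith)
    exact exc_of h ht hC (hQ 0).2
  · intro P hP f hf hfW
    by_contra hcon
    exact hP ⟨P, rfl, f, hf, hfW, not_le.1 hcon⟩

/-- the light cone of `T(A,.,.)` -/
theorem cone_A [CharZero k] [T0Space X.P] (h : Hyp X) (ht : Thr T l c A D s) :
    ∃ B : ℝ, 0 < B ∧ ∀ S : Cart X, 0 < T A A S → 0 ≤ T A S S → 0 ≤ tp T A D s A S →
      T A A S ≤ B * tp T A D s A S := by
  have hT := ht.hr.tri
  obtain ⟨α, hα⟩ : ∃ α, α = tpp T A D s A := ⟨_, rfl⟩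
  obtain ⟨β, hβ⟩ : ∃ β, β = tp T A D s A A := ⟨_, rfl⟩
  obtain ⟨κ, hκ⟩ : ∃ κ, κ = T A A A := ⟨_, rfl⟩
  have hα0 : 0 < α := by rw [hα]; exact tppA_pos h ht
  have hβ0 : 0 ≤ β := by rw [hβ]; exact tp_amp h ht ht.hA ht.hA
  have hκ0 : 0 < κ := by rw [hκ]; exact pos_amp h ht.hr ht.hA ht.hA ht.hA
  obtain ⟨n, hn⟩ := exists_nat_gt (max 1 (4 * (β + κ) / α))
  have hn1 : (1 : ℝ) < n := (le_max_left _ _).trans_lt hn
  have hn2 := (le_max_right _ _).trans_lt hn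
  rw [div_lt_iff₀ hα0] at hn2
  obtain ⟨a, h1, h2, h3⟩ := exists_W ht.toThs n (by exact_mod_cast hn1.le)
  refine ⟨4 * (β + κ) / α, by positivity, fun S hδ hSS hγ => ?_⟩
  obtain ⟨W, hW⟩ : ∃ W, W = A ^ a * D ^ (n : ℤ) := ⟨_, rfl⟩
  obtain ⟨e, he⟩ : ∃ e : ℝ, e = a - s * (n : ℤ) := ⟨_, rfl⟩
  obtain ⟨γ, hγd⟩ : ∃ γ, γ = tp T A D s A S := ⟨_, rfl⟩
  obtain ⟨δ, hδd⟩ : ∃ δ, δ = T A A S := ⟨_, rfl⟩
  have w1 : T W W A = (n : ℝ) ^ 2 * α + 2 * n * e * β + e ^ 2 * κ := by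
    rw [hW, w_TT hT s, ← hα, ← hβ, ← hκ, ← he]
    push_cast
    ring
  have w2 : T W A A = n * β + e * κ := by
    rw [hW, w_T hT s, ← hβ, ← hκ, ← he]
    push_cast
    ring
  have w3 : T W A S = n * γ + e * δ := by
    rw [hW, w_T hT s, ← hγd, ← hδd, ← he]
    push_cast
    ring
  rw [← he] at h2 h3
  rw [← hγd] at hγ ⊢
  rw [← hδd] at hδ ⊢
  obtain ⟨z1, hz1⟩ := t_int ht.hr h.amp A A S
  obtain ⟨z2, hz2⟩ := t_int ht.hr h.amp W A A
  rw [← hδd] at hz1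
  have hE1 : T (W ^ z1 * S ^ (-z2)) A A = 0 := by
    rw [hT.add, hT.zpow, hT.zpow, ← hz1, ← tri_rot hT A A S, ← hδd, hz2]
    push_cast
    ring
  have hE2 := hdg_amp h ht.hr ht.hA _ hE1
  have hE3 : T (W ^ z1 * S ^ (-z2)) (W ^ z1 * S ^ (-z2)) A =
      δ ^ 2 * T W W A - 2 * δ * T W A A * T W A S + T W A A ^ 2 * T A S S := by
    simp only [hT.add, hT.add2, hT.zpow, hT.zpow2]
    rw [hT.s12 S W A, hT.s23 W S A, tri_rot hT S S A, hz1, hz2]
    push_cast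
    ring
  rw [hE3] at hE2
  have g1 : δ * (δ * T W W A) ≤ δ * (2 * T W A A * T W A S) := by
    have : 0 ≤ T W A A ^ 2 * T A S S := by positivity
    linarith
  have g2 := le_of_mul_le_mul_left g1 hδ
  rw [w1, w2, w3] at g2
  have hn0 : (0 : ℝ) < n := by linarith
  have g3 : n * β + e * κ ≤ n * (β + κ) := by
    have : e * κ ≤ n * κ := mul_le_mul_of_nonneg_right (h3.trans hn1.le) hκ0.le
    linarith
  have g4 : n * γ + e * δ ≤ n * γ + δ := by
    have : e * δ ≤ 1 * δ := mul_le_mul_of_nonneg_right h3 hδ.le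
    linarith
  have g5 : 2 * (n * β + e * κ) * (n * γ + e * δ) ≤ 2 * (n * (β + κ)) * (n * γ + δ) := by
    apply mul_le_mul (by linarith) g4 (by positivity) (by positivity)
  have g6 : δ * ((n : ℝ) ^ 2 * α) ≤ δ * ((n : ℝ) ^ 2 * α + 2 * n * e * β + e ^ 2 * κ) := by
    apply mul_le_mul_of_nonneg_left _ hδ.le
    have q1 : 0 ≤ 2 * n * e * β := by positivity
    have q2 : 0 ≤ e ^ 2 * κ := by positivity
    linarith
  have g7 : 4 * (β + κ) * (n * δ) ≤ n * α * (n * δ) := mul_le_mul_of_nonneg_right hn2.le (by positivity)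
  have g8 : (n : ℝ) ^ 2 * (δ * α) ≤ (n : ℝ) ^ 2 * (4 * (β + κ) * γ) := by
    have q1 := (g6.trans g2).trans g5
    have q2 : 2 * (n * (β + κ)) * (n * γ + δ) = (n : ℝ) ^ 2 * (2 * (β + κ) * γ) + 2 * (β + κ) * (n * δ) := by ring
    rw [q2] at q1
    have q3 : δ * ((n : ℝ) ^ 2 * α) = (n : ℝ) ^ 2 * (δ * α) := by ring
    have q4 : n * α * (n * δ) = (n : ℝ) ^ 2 * (δ * α) := by ring
    rw [q3] at q1
    rw [q4] at g7
    linarith
  have g9 := le_of_mul_le_mul_left g8 (by positivity)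
  rw [div_mul_eq_mul_div, le_div_iff₀ hα0]
  exact g9

theorem fin_q [CharZero k] [T0Space X.P] (h : Hyp X) {ρ : ℕ} (ν : Cart X →* Multiplicative (Fin ρ → ℤ))
    (hν : ∀ D, ν D = 1 → NumZ D) (ht : Thr T l c A D s) : FinQ T A D s := by
  have hT := ht.hr.tri
  obtain ⟨c₁, hc₁, hlow⟩ := low_prm h ht
  obtain ⟨B, hB, hcone⟩ := cone_A h ht
  intro c₀ Γ hc₀
  obtain ⟨H, hH⟩ : ∃ H : ℝ, H = B * (Γ / (2 * c₀)) := ⟨_, rfl⟩
  obtain ⟨n, hn⟩ := exists_nat_gt (max 1 (Γ * H ^ 2 / c₁))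
  have hn1 : (1 : ℝ) < n := (le_max_left _ _).trans_lt hn
  have hn2 := (le_max_right _ _).trans_lt hn
  rw [div_lt_iff₀ hc₁] at hn2
  refine ⟨n, fun a b hb he hbe hinf => ?_⟩
  have hbn : (n : ℝ) ≤ b := by exact_mod_cast hb
  have hb0 : (0 : ℝ) < b := by linarith
  obtain ⟨e, hed⟩ : ∃ e : ℝ, e = a - s * b := ⟨_, rfl⟩
  rw [← hed] at he hbe
  have hwtt := fun S => w_TT (A := A) (D := D) hT s a b S
  obtain ⟨C, hC, hQ⟩ := exists_pf h ht.hr ν hν ht.hA (Γ / e ^ 2)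
    (fun S => T A A S ≤ Γ / e ^ 2 ∧ T (A ^ a * D ^ b) (A ^ a * D ^ b) S ≤ Γ) (fun S hS => hS.1) hinf (by
      rintro η ⟨P, hP, S, hS, hΓ⟩
      refine ⟨P, hP, S, hS, ?_, hΓ⟩
      rw [hwtt S, ← hed] at hΓ
      have p1 := tpp_eff h ht hS.eff
      have p2 := tp_eff h ht ht.hA hS.eff
      rw [le_div_iff₀ (by positivity)]
      have p3 : 0 ≤ (b : ℝ) ^ 2 * tpp T A D s S := by positivity
      have p4 : 0 ≤ 2 * b * e * tp T A D s A S := by positivity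
      linarith)
  obtain ⟨P, hP, hS⟩ := hC.prm
  have p0 := pos_prm h ht.hr ht.hA ht.hA (P 0) (hS 0)
  have p1 := tpp_eff h ht (hS 0).eff
  have p2 := tp_eff h ht ht.hA (hS 0).eff
  have hΓ := (hQ 0).2
  rw [hwtt (C 0), ← hed] at hΓ
  have p3 : 0 ≤ (b : ℝ) ^ 2 * tpp T A D s (C 0) := by positivity
  have p4 : 0 ≤ 2 * b * e * tp T A D s A (C 0) := by positivity
  have p5 : 0 ≤ e ^ 2 * T A A (C 0) := by positivity
  have p6 : tp T A D s A (C 0) ≤ Γ / (2 * c₀) := by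
    rw [le_div_iff₀ (by positivity)]
    have q1 : 2 * c₀ * tp T A D s A (C 0) ≤ 2 * (b * e) * tp T A D s A (C 0) :=
      mul_le_mul_of_nonneg_right (by linarith) p2
    linarith
  have p7 : T A A (C 0) ≤ H := by
    rw [hH]
    exact (hcone _ p0 (nn_G h ht.hr hC ht.hA) p2).trans (mul_le_mul_of_nonneg_left p6 hB.le)
  apply exc_of h ht hC
  by_contra hne
  have p8 := hlow (P 0) (C 0) (hS 0) H p7 hne
  have p9 : (b : ℝ) ^ 2 * c₁ ≤ Γ * H ^ 2 := by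
    calc (b : ℝ) ^ 2 * c₁ ≤ (b : ℝ) ^ 2 * (tpp T A D s (C 0) * H ^ 2) := mul_le_mul_of_nonneg_left p8 (by positivity)
      _ = ((b : ℝ) ^ 2 * tpp T A D s (C 0)) * H ^ 2 := by ring
      _ ≤ Γ * H ^ 2 := mul_le_mul_of_nonneg_right (by linarith) (by positivity)
  have p10 : (n : ℝ) * c₁ ≤ (b : ℝ) ^ 2 * c₁ := by
    apply mul_le_mul_of_nonneg_right _ hc₁.le
    nlinarith
  linarith

end Pool.Agent.H36.TQ
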