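import Pool.Agent.H36.TQ.Pos
import Pool.Agent.H24.VP.Nef

/-!
# [H36 TQ Cls] THEOREM Q (MP_e49dc9_ag): finitely many classes of prime divisors of bounded degree

`gen_fin`: finitely many divisors `G i` generate the lattice up to numerically trivial divisors (the image of `ν` is a
subgroup of `ℤ ^ ρ`).  `abs_T`: `|T(U,V,S)| ≤ 3 n ^ 2 T(A,A,S)` if `A ^ n * U ^ (± 1)`, `A ^ n * V ^ (± 1)` are ample and `S` is the divisor of a
prime surface.  `cls_fin`: the functions `T(S,.,.)` with `T(A,A,S) ≤ M` form a finite set.  `exists_pf`: an infinite set of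
prime surfaces of bounded degree contains infinitely many with the same `T(S,.,.)`.
-/

set_option autoImplicit false

namespace Pool.Agent.H36.TQ

open Pool.Agent.H54.RV Pool.Agent.H83.TU Pool.Agent.H83.TK Pool.Agent.H24.VP Pool.Agent.H39.TQ

variable {k K : Type} [Field k] [Field K] [Algebra k K] {X : Mod k K}
  {T : Cart X → Cart X → Cart X → ℝ} {l : Cart X → ℝ} {c : ℝ} {A D : Cart X} {s : ℝ}

theorem gen_fin {ρ : ℕ} (ν : Cart X →* Multiplicative (Fin ρ → ℤ)) :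
    ∃ (r : ℕ) (G : Fin r → Cart X), ∀ U : Cart X, ∃ n : Fin r → ℤ, ν (U * (∏ i, G i ^ n i)⁻¹) = 1 := by
  classical
  obtain ⟨M, hM⟩ : ∃ M : Submodule ℤ (Fin ρ → ℤ), ∀ x, x ∈ M ↔ ∃ U : Cart X, Multiplicative.toAdd (ν U) = x := by
    refine ⟨{ carrier := {x | ∃ U : Cart X, Multiplicative.toAdd (ν U) = x}
              add_mem' := ?_
              zero_mem' := ⟨1, by rw [map_one]; rfl⟩
              smul_mem' := ?_ }, fun x => Iff.rfl⟩
    · rintro a b ⟨U, rfl⟩ ⟨V, rfl⟩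
      exact ⟨U * V, by rw [map_mul]; rfl⟩
    · rintro n _ ⟨U, rfl⟩
      exact ⟨U ^ n, by rw [map_zpow, toAdd_zpow]⟩
  have hfg : M.FG := IsNoetherian.noetherian M
  obtain ⟨r, g, hg⟩ := Submodule.fg_iff_exists_fin_generating_family.1 hfg
  have hgM : ∀ i, g i ∈ M := fun i => by
    rw [← hg]
    exact Submodule.subset_span ⟨i, rfl⟩
  choose G hG using fun i => (hM (g i)).1 (hgM i)
  refine ⟨r, G, fun U => ?_⟩
  have hU : Multiplicative.toAdd (ν U) ∈ Submodule.span ℤ (Set.range g) := by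
    rw [hg, hM]
    exact ⟨U, rfl⟩
  rw [Submodule.mem_span_range_iff_exists_fun] at hU
  obtain ⟨n, hn⟩ := hU
  refine ⟨n, ?_⟩
  apply Multiplicative.toAdd.injective
  rw [toAdd_one, map_mul, map_inv, toAdd_mul, toAdd_inv, map_prod ν, toAdd_prod, ← hn, ← sub_eq_add_neg, sub_eq_zero]
  refine Finset.sum_congr rfl fun i _ => ?_
  rw [map_zpow, toAdd_zpow, hG]

/-- a bound for all intersection numbers of a prime surface -/
theorem abs_T [CharZero k] [T0Space X.P] (h : Hyp X) (hr : RR T l c) (hA : Ample A) {U V : Cart X} {n : ℕ}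
    (hU : Ample (A ^ n * U)) (hU' : Ample (A ^ n * U⁻¹)) (hV : Ample (A ^ n * V)) (hV' : Ample (A ^ n * V⁻¹))
    (P : PDiv X) {S : Cart X} (hS : SPr X P.η S) : |T U V S| ≤ 3 * (n : ℝ) ^ 2 * T A A S := by
  have hT := hr.tri
  have h1 := pos_prm h hr hA hU P hS
  have h2 := pos_prm h hr hA hU' P hS
  have h3 := pos_prm h hr hA hV P hS
  have h4 := pos_prm h hr hA hV' P hS
  have h5 := pos_prm h hr hU hV P hS
  have h6 := pos_prm h hr hU hV' P hS
  simp only [hT.add, hT.add2, hT.pow, hT.pow2, hT.inv2] at h1 h2 h3 h4 h5 h6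
  rw [hT.s12 U A S] at h5 h6
  have hn : (0 : ℝ) ≤ n := Nat.cast_nonneg n
  rw [abs_le]
  constructor
  · nlinarith
  · nlinarith

theorem exists_n (hX : IsVar X) (hA : Ample A) {ι : Type} [Finite ι] (G : ι → Cart X) :
    ∃ n : ℕ, ∀ i, Ample (A ^ n * G i) ∧ Ample (A ^ n * (G i)⁻¹) := by
  classical
  have := Fintype.ofFinite ι
  choose n1 h1 using fun i => exists_amp hX hA (G i)
  choose n2 h2 using fun i => exists_amp hX hA (G i)⁻¹
  refine ⟨∑ i, (n1 i + n2 i), fun i => ?_⟩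
  have h3 : n1 i + n2 i ≤ ∑ i, (n1 i + n2 i) :=
    Finset.single_le_sum (f := fun i => n1 i + n2 i) (fun _ _ => Nat.zero_le _) (Finset.mem_univ i)
  exact ⟨h1 i _ (by omega), h2 i _ (by omega)⟩

theorem cls_fin [CharZero k] [T0Space X.P] (h : Hyp X) (hr : RR T l c) {ρ : ℕ}
    (ν : Cart X →* Multiplicative (Fin ρ → ℤ)) (hν : ∀ D, ν D = 1 → NumZ D) (hA : Ample A) (M : ℝ) :
    {f : Cart X → Cart X → ℝ | ∃ (P : PDiv X) (S : Cart X), SPr X P.η S ∧ T A A S ≤ M ∧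
      f = fun U V => T S U V}.Finite := by
  classical
  obtain ⟨r, G, hG⟩ := gen_fin ν
  obtain ⟨n, hn⟩ := exists_n h.var hA G
  have hT := hr.tri
  obtain ⟨Z, hZ⟩ : ∃ Z : Set ℝ, Z = (fun m : ℤ => (m : ℝ)) '' Set.Icc (-⌈3 * (n : ℝ) ^ 2 * M⌉) ⌈3 * (n : ℝ) ^ 2 * M⌉ :=
    ⟨_, rfl⟩
  have hZf : Z.Finite := by
    rw [hZ]
    exact (Set.finite_Icc _ _).image _
  -- expansions
  have hexp : ∀ (f : Cart X → Cart X → ℝ), (∃ S, f = fun U V => T S U V) → ∀ (U V : Cart X) (m m' : Fin r → ℤ),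
      ν (U * (∏ i, G i ^ m i)⁻¹) = 1 → ν (V * (∏ i, G i ^ m' i)⁻¹) = 1 →
        f U V = ∑ i, ∑ j, (m i : ℝ) * (m' j * f (G i) (G j)) := by
    rintro f ⟨S, rfl⟩ U V m m' hm hm'
    have e1 : ∀ C C' : Cart X, T U C C' = T (∏ i, G i ^ m i) C C' := by
      intro C C'
      have := numz_T h hr (hν _ hm) C C'
      rw [hT.add, hT.inv] at this
      linarith
    have e2 : ∀ C C' : Cart X, T V C C' = T (∏ i, G i ^ m' i) C C' := by
      intro C C'
      have := numz_T h hr (hν _ hm') C C'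
      rw [hT.add, hT.inv] at this
      linarith
    change T S U V = ∑ i, ∑ j, (m i : ℝ) * (m' j * T S (G i) (G j))
    rw [hT.s12, e1, hT.prod]
    refine Finset.sum_congr rfl fun i _ => ?_
    rw [hT.zpow, hT.s12, tri_rot hT S (G i) V, e2, hT.prod, Finset.mul_sum]
    refine Finset.sum_congr rfl fun j _ => ?_
    rw [hT.zpow, ← tri_rot hT]
  refine Set.Finite.of_finite_image (f := fun f => fun (i j : Fin r) => f (G i) (G j)) ?_ ?_
  · refine Set.Finite.subset (Set.Finite.pi' fun i : Fin r => Set.Finite.pi' fun j : Fin r => hZf) ?_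
    rintro _ ⟨f, ⟨P, S, hS, hM, rfl⟩, rfl⟩ i j
    obtain ⟨z, hz⟩ := t_int hr h.amp S (G i) (G j)
    have h1 := abs_T h hr hA (hn i).1 (hn i).2 (hn j).1 (hn j).2 P hS
    have h2 : T (G i) (G j) S = T S (G i) (G j) := tri_rot hT _ _ _
    rw [h2, hz] at h1
    have h3 : |(z : ℝ)| ≤ 3 * (n : ℝ) ^ 2 * M := h1.trans (mul_le_mul_of_nonneg_left hM (by positivity))
    rw [abs_le] at h3
    change T S (G i) (G j) ∈ Z
    rw [hz, hZ]
    refine ⟨z, ⟨?_, ?_⟩, rfl⟩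
    · have h4 := Int.le_ceil (3 * (n : ℝ) ^ 2 * M)
      have h5 : -((⌈3 * (n : ℝ) ^ 2 * M⌉ : ℤ) : ℝ) ≤ z := by linarith
      exact_mod_cast h5
    · have h4 := Int.le_ceil (3 * (n : ℝ) ^ 2 * M)
      have h5 : (z : ℝ) ≤ ((⌈3 * (n : ℝ) ^ 2 * M⌉ : ℤ) : ℝ) := by linarith
      exact_mod_cast h5
  · rintro f ⟨P, S, -, -, hf⟩ f' ⟨P', S', -, -, hf'⟩ hff
    funext U V
    obtain ⟨m, hm⟩ := hG U
    obtain ⟨m', hm'⟩ := hG V
    rw [hexp f ⟨S, hf⟩ U V m m' hm hm', hexp f' ⟨S', hf'⟩ U V m m' hm hm']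
    refine Finset.sum_congr rfl fun i _ => Finset.sum_congr rfl fun j _ => ?_
    have := congrFun (congrFun hff i) j
    simp only at this
    rw [this]

/-- infinitely many prime surfaces of bounded degree: a subfamily of numerically equal ones -/
theorem exists_pf [CharZero k] [T0Space X.P] (h : Hyp X) (hr : RR T l c) {ρ : ℕ}
    (ν : Cart X →* Multiplicative (Fin ρ → ℤ)) (hν : ∀ D, ν D = 1 → NumZ D) (hA : Ample A) (M : ℝ)
    (Q : Cart X → Prop) (hM : ∀ S, Q S → T A A S ≤ M) {Z : Set X.P} (hZ : Z.Infinite)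
    (hQ : ∀ η ∈ Z, ∃ P : PDiv X, P.η = η ∧ ∃ S : Cart X, SPr X P.η S ∧ Q S) :
    ∃ C : ℕ → Cart X, Pfam T C ∧ ∀ i, Q (C i) := by
  classical
  choose P hP S hS hQS using fun η : Z => hQ η.1 η.2
  have hfin := (cls_fin h hr ν hν hA M).to_subtype
  have hinf := hZ.to_subtype
  obtain ⟨F, hF⟩ : ∃ F : Z → {f : Cart X → Cart X → ℝ | ∃ (P : PDiv X) (S : Cart X), SPr X P.η S ∧ T A A S ≤ M ∧
      f = fun U V => T S U V}, ∀ η, (F η).1 = fun U V => T (S η) U V :=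
    ⟨fun η => ⟨fun U V => T (S η) U V, P η, S η, hS η, hM _ (hQS η), rfl⟩, fun _ => rfl⟩
  obtain ⟨f, hf⟩ := Finite.exists_infinite_fiber F
  obtain ⟨φ⟩ : Nonempty (ℕ ↪ F ⁻¹' {f}) := ⟨Infinite.natEmbedding _⟩
  have hφ : ∀ i, F (φ i).1 = f := fun i => (φ i).2
  refine ⟨fun i => S (φ i).1, ⟨⟨fun i => P (φ i).1, ?_, fun i => hS _⟩, ?_⟩, fun i => hQS _⟩
  · intro i j hij
    rw [hP, hP] at hij
    exact φ.injective (Subtype.ext (Subtype.ext hij))
  · intro i U V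
    have h1 : (F (φ i).1).1 = (F (φ 0).1).1 := by rw [hφ, hφ]
    rw [hF, hF] at h1
    exact congrFun (congrFun h1 U) V

end Pool.Agent.H36.TQ
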