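import Pool.Agent.H36.TQ.Cls

/-!
# [H36 TQ Exc] THEOREM Q (MP_e49dc9_ag): numerically equal prime surfaces with `T(p,p,C) = 0`

`C` a family of numerically equal prime surfaces, `S := C 0`.  `nn_G`: `T(G,S,S) = T(G,C 0,C 1) ≥ 0` for ample `G`.
`hodge_p`: Hodge index on the ample `W n = n p + e A`: `T(W,W,W) T(S,S,W) ≤ T(W,W,S) ^ 2`; with `T(p,p,S) = 0`, `T(p,p,p) = 0` the left
side is at least `3 n ^ 3 e T(p,p,A) T(p,S,S)` and the right side is at most a constant times `n ^ 2 e ^ 2`, so `T(p,S,S) ≤ 0`.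
`exc_of`: so `T(p,S,S) = 0`, `T(A,S,S) = T(D,S,S) = 0` since `s` is irrational, `T(G,S,S) = 0` for all `G`: the exception.
-/

set_option autoImplicit false

namespace Pool.Agent.H36.TQ

open Pool.Agent.H54.RV Pool.Agent.H83.TU Pool.Agent.H83.TK Pool.Agent.H24.VP Pool.Agent.H39.TQ

variable {k K : Type} [Field k] [Field K] [Algebra k K] {X : Mod k K}
  {T : Cart X → Cart X → Cart X → ℝ} {l : Cart X → ℝ} {c : ℝ} {A D : Cart X} {s : ℝ}

theorem nn_G [CharZero k] [T0Space X.P] (h : Hyp X) (hr : RR T l c) {C : ℕ → Cart X} (hC : Pfam T C) {G : Cart X}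
    (hG : Ample G) : 0 ≤ T G (C 0) (C 0) := by
  obtain ⟨P, hP, hS⟩ := hC.prm
  have h1 := nn_two h hr hG (P 1) (P 0) (hS 1) (hS 0) (fun h1 => one_ne_zero (hP 1 0 h1))
  rw [hC.num, tri_rot hr.tri] at h1
  exact h1

theorem all_G [CharZero k] [T0Space X.P] (h : Hyp X) (hr : RR T l c) {C : ℕ → Cart X} (hC : Pfam T C) (hA : Ample A)
    (h0 : T A (C 0) (C 0) = 0) (G : Cart X) : T G (C 0) (C 0) = 0 := by
  have hT := hr.tri
  have key : ∀ B : Cart X, Ample B → T B (C 0) (C 0) = 0 := by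
    intro B hB
    refine le_antisymm ?_ (nn_G h hr hC hB)
    obtain ⟨n, hn⟩ := exists_amp h.var hA B⁻¹
    have h1 := nn_G h hr hC (hn n le_rfl)
    rw [hT.add, hT.pow, hT.inv, h0, mul_zero] at h1
    linarith
  obtain ⟨n, hn⟩ := exists_amp h.var hA G
  have h1 := key _ (hn n le_rfl)
  rw [hT.add, hT.pow, h0, mul_zero, zero_add] at h1
  exact h1

/-- Hodge index for `E = S`, `L = H = W` -/
theorem hdg_W [CharZero k] [T0Space X.P] (h : Hyp X) (hr : RR T l c) {W : Cart X} (hW : Ample W) (S : Cart X) :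
    T W W W * T W S S ≤ T W W S ^ 2 := by
  have h1 := hdg_L hr.tri (t_int hr h.amp) (pos_amp h hr hW hW hW) (fun E hE => hdg_amp h hr hW E hE) W S
    (pos_amp h hr hW hW hW)
  rwa [hr.tri.s23 W S W, tri_rot hr.tri S S W] at h1

theorem hodge_p [CharZero k] [T0Space X.P] (h : Hyp X) (ht : Thr T l c A D s) {S : Cart X}
    (hS : tpp T A D s S = 0) (hAS : 0 ≤ T A S S) (hpS : 0 ≤ tp T A D s S S) : tp T A D s S S = 0 := by
  have hT := ht.hr.tri
  obtain ⟨α, hα⟩ : ∃ α, α = tpp T A D s A := ⟨_, rfl⟩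
  obtain ⟨β, hβ⟩ : ∃ β, β = tp T A D s A A := ⟨_, rfl⟩
  obtain ⟨κ, hκ⟩ : ∃ κ, κ = T A A A := ⟨_, rfl⟩
  obtain ⟨γ, hγ⟩ : ∃ γ, γ = tp T A D s A S := ⟨_, rfl⟩
  obtain ⟨δ, hδ⟩ : ∃ δ, δ = T A A S := ⟨_, rfl⟩
  obtain ⟨x, hx⟩ : ∃ x, x = tp T A D s S S := ⟨_, rfl⟩
  obtain ⟨y, hy⟩ : ∃ y, y = T A S S := ⟨_, rfl⟩
  have hα0 : 0 < α := by rw [hα]; exact tppA_pos h ht
  have hβ0 : 0 ≤ β := by rw [hβ]; exact tp_amp h ht ht.hA ht.hA
  have hκ0 : 0 < κ := by rw [hκ]; exact pos_amp h ht.hr ht.hA ht.hA ht.hA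
  rw [← hy] at hAS
  rw [← hx] at hpS ⊢
  obtain ⟨M, hM⟩ : ∃ M : ℝ, M = (2 * |γ| + |δ|) ^ 2 := ⟨_, rfl⟩
  have key : ∀ n : ℕ, 1 ≤ n → n * (3 * α * x) ≤ M := by
    intro n hn
    obtain ⟨a, h1, h2, h3⟩ := exists_W ht.toThs n hn
    have hn1 : (1 : ℝ) ≤ n := by exact_mod_cast hn
    have h4 := hdg_W h ht.hr h1 S
    have e1 := w_TTT (A := A) (D := D) hT s a n
    have e2 := w_TT (A := A) (D := D) hT s a n S
    have e3 := w_T (A := A) (D := D) hT s a n S S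
    rw [e1, e2, e3, ht.p3, hS, ← hα, ← hβ, ← hκ, ← hγ, ← hδ, ← hx, ← hy] at h4
    obtain ⟨e, he⟩ : ∃ e : ℝ, e = a - s * (n : ℤ) := ⟨_, rfl⟩
    rw [← he] at h2 h3 h4
    push_cast at h4
    obtain ⟨b, hb⟩ : ∃ b : ℝ, b = n := ⟨_, rfl⟩
    rw [← hb] at h4 hn1 ⊢
    have hb0 : 0 < b := by linarith
    have g1 : 3 * b ^ 2 * e * α * (b * x) ≤ (b ^ 3 * 0 + 3 * b ^ 2 * e * α + 3 * b * e ^ 2 * β + e ^ 3 * κ) *
        (b * x + e * y) := by
      have p1 : 0 ≤ 3 * b ^ 2 * e * α := by positivity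
      have p2 : 0 ≤ 3 * b * e ^ 2 * β := by positivity
      have p3 : 0 ≤ e ^ 3 * κ := by positivity
      have p4 : 0 ≤ b * x := by positivity
      have p5 : 0 ≤ e * y := by positivity
      exact mul_le_mul (by linarith) (by linarith) p4 (by linarith)
    have g2 : (b ^ 2 * 0 + 2 * b * e * γ + e ^ 2 * δ) ^ 2 ≤ b ^ 2 * e ^ 2 * M := by
      have q1 : b ^ 2 * 0 + 2 * b * e * γ + e ^ 2 * δ = b * e * (2 * γ + e / b * δ) := by
        field_simp
        ring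
      have q2 : |2 * γ + e / b * δ| ≤ 2 * |γ| + |δ| := by
        have r1 : e / b ≤ 1 := by
          rw [div_le_one hb0]
          linarith
        have r2 : 0 ≤ e / b := by positivity
        refine (abs_add_le _ _).trans ?_
        rw [abs_mul, abs_mul, abs_two, abs_of_nonneg r2]
        have := mul_le_mul_of_nonneg_right r1 (abs_nonneg δ)
        linarith
      rw [q1, mul_pow, mul_pow, hM]
      apply mul_le_mul_of_nonneg_left _ (by positivity)
      rw [← sq_abs]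
      exact pow_le_pow_left₀ (abs_nonneg _) q2 2
    have g3 := (g1.trans h4).trans g2
    have g4 : (b ^ 2 * e) * (b * (3 * α * x)) ≤ (b ^ 2 * e) * (e * M) := by
      calc (b ^ 2 * e) * (b * (3 * α * x)) = 3 * b ^ 2 * e * α * (b * x) := by ring
        _ ≤ _ := g3
        _ = _ := by ring
    have g5 := le_of_mul_le_mul_left g4 (by positivity)
    have g6 : e * M ≤ 1 * M := mul_le_mul_of_nonneg_right h3 (by rw [hM]; positivity)
    linarith
  by_contra hne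
  have hx0 : 0 < x := lt_of_le_of_ne hpS (Ne.symm hne)
  obtain ⟨n, hn⟩ := exists_nat_gt (max 1 (M / (3 * α * x)))
  have hn1 : (1 : ℝ) < n := (le_max_left _ _).trans_lt hn
  have hn2 := (le_max_right _ _).trans_lt hn
  rw [div_lt_iff₀ (by positivity)] at hn2
  have := key n (by exact_mod_cast hn1.le)
  linarith

/-- **the exception** -/
theorem exc_of [CharZero k] [T0Space X.P] (h : Hyp X) (ht : Thr T l c A D s) {C : ℕ → Cart X} (hC : Pfam T C)
    (h0 : tpp T A D s (C 0) = 0) : Exc T A D s := by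
  have hT := ht.hr.tri
  have h1 : tp T A D s (C 0) (C 0) = 0 :=
    hodge_p h ht h0 (nn_G h ht.hr hC ht.hA) (tp_lim ht fun _ hW => nn_G h ht.hr hC hW)
  have h2 : T A (C 0) (C 0) = 0 := by
    unfold tp at h1
    refine irr_int ht.irr _ _ (t_int ht.hr h.amp D (C 0) (C 0)) (t_int ht.hr h.amp A (C 0) (C 0)) ?_
    linarith
  have h3 := all_G h ht.hr hC ht.hA h2
  refine ⟨C, hC, fun i j G => ?_, fun i => ?_⟩
  · rw [hT.s12, hC.num, tri_rot hT, hC.num, ← h3 G, hT.s23, hT.s12]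
  · rw [← h0]
    unfold tpp
    rw [tri_rot hT D D, tri_rot hT A D, tri_rot hT A A, hC.num, hC.num i A D, hC.num i A A,
      ← tri_rot hT D D, ← tri_rot hT A D, ← tri_rot hT A A]

end Pool.Agent.H36.TQ
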