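import Pool.Agent.H39.TQ.Wab
import Pool.Agent.H24.VP.Hda2
import Pool.Agent.H83.TU.AM

/-!
# [H36 TQ Pos] THEOREM Q (MP_e49dc9_ag): positivity at the point `p`

`W n = A ^ (⌊s n⌋ + 1) * D ^ n` is ample, `W n = n p + e A` with `0 < e ≤ 1`: the nonnegativity of `T(G,G',W n)`, `T(W n,W n,E)` and
`l (W n)` gives `T(p,G,G') ≥ 0`, `T(p,p,E) ≥ 0` and `l(p) ≥ 0`.

`tppA_pos`: `T(p,p,A) > 0`: otherwise `s` is a double root of the cubic polynomial `T(D + t A, D + t A, D + t A)`, whose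
coefficients are integers (`t_int`).  `lp_pos`: `l(p) > 0`: otherwise `s = - l(D) / l(A)`, and `6 l(A)`, `6 l(D)` are integers.
-/

set_option autoImplicit false

namespace Pool.Agent.H36.TQ

open Pool.Agent.H54.RV Pool.Agent.H83.TU Pool.Agent.H83.TK Pool.Agent.H24.VP Pool.Agent.H39.TQ

variable {k K : Type} [Field k] [Field K] [Algebra k K] {X : Mod k K}
  {T : Cart X → Cart X → Cart X → ℝ} {l : Cart X → ℝ} {c : ℝ} {A D : Cart X} {s : ℝ}

theorem lim_one {x y : ℝ} (h : ∀ n : ℕ, 1 ≤ n → ∃ e : ℝ, 0 < e ∧ e ≤ 1 ∧ 0 ≤ n * x + e * y) : 0 ≤ x := by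
  by_contra hx
  push Not at hx
  obtain ⟨n, hn⟩ := exists_nat_gt (|y| / -x)
  have hx' : 0 < -x := by linarith
  have h0 : 0 ≤ |y| / -x := by positivity
  have hn0 : (0 : ℝ) < n := by linarith
  obtain ⟨e, he0, he1, h1⟩ := h n (by exact_mod_cast hn0)
  rw [div_lt_iff₀ hx'] at hn
  have h2 : e * y ≤ |y| := by
    calc e * y ≤ |e * y| := le_abs_self _
      _ = e * |y| := by rw [abs_mul, abs_of_pos he0]
      _ ≤ 1 * |y| := mul_le_mul_of_nonneg_right he1 (abs_nonneg _)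
      _ = |y| := one_mul _
  linarith

theorem lim_two {x y z : ℝ} (h : ∀ n : ℕ, 1 ≤ n → ∃ e : ℝ, 0 < e ∧ e ≤ 1 ∧ 0 ≤ (n : ℝ) ^ 2 * x + 2 * n * e * y + e ^ 2 * z) :
    0 ≤ x := by
  apply lim_one (y := 2 * |y| + |z|)
  intro n hn
  obtain ⟨e, he0, he1, h1⟩ := h n hn
  refine ⟨1, one_pos, le_rfl, ?_⟩
  have hn1 : (1 : ℝ) ≤ n := by exact_mod_cast hn
  have hn0 : (0 : ℝ) < n := by linarith
  have h2 : 0 ≤ (n : ℝ) * (n * x + 1 * (2 * |y| + |z|)) := by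
    have h3 : 2 * n * e * y ≤ n * (2 * |y|) := by
      have : e * y ≤ |y| := by
        calc e * y ≤ |e * y| := le_abs_self _
          _ = e * |y| := by rw [abs_mul, abs_of_pos he0]
          _ ≤ 1 * |y| := mul_le_mul_of_nonneg_right he1 (abs_nonneg _)
          _ = |y| := one_mul _
      calc 2 * n * e * y = (2 * n) * (e * y) := by ring
        _ ≤ (2 * n) * |y| := mul_le_mul_of_nonneg_left this (by positivity)
        _ = n * (2 * |y|) := by ring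
    have h4 : e ^ 2 * z ≤ n * |z| := by
      have h5 : e ^ 2 ≤ 1 := pow_le_one₀ he0.le he1
      calc e ^ 2 * z ≤ |e ^ 2 * z| := le_abs_self _
        _ = e ^ 2 * |z| := by rw [abs_mul, abs_of_pos (by positivity)]
        _ ≤ n * |z| := mul_le_mul_of_nonneg_right (h5.trans hn1) (abs_nonneg _)
    nlinarith
  exact (mul_nonneg_iff_of_pos_left hn0).1 h2

/-- ample divisors near `p` -/
theorem exists_W (ht : Ths A D s) (n : ℕ) (hn : 1 ≤ n) :
    ∃ a : ℤ, Ample (A ^ a * D ^ (n : ℤ)) ∧ 0 < (a : ℝ) - s * (n : ℤ) ∧ (a : ℝ) - s * (n : ℤ) ≤ 1 := by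
  have h1 : s * (n : ℤ) < ((⌊s * (n : ℤ)⌋ + 1 : ℤ) : ℝ) := by
    push_cast
    have := Int.lt_floor_add_one (s * (n : ℤ))
    push_cast at this
    exact this
  refine ⟨⌊s * (n : ℤ)⌋ + 1, ht.amp _ _ (by exact_mod_cast hn) h1, by linarith, ?_⟩
  have := Int.floor_le (s * (n : ℤ))
  push_cast at this ⊢
  linarith

/-- the limit for `T(p,U,V)` -/
theorem tp_lim (ht : Thr T l c A D s) {U V : Cart X} (h : ∀ W, Ample W → 0 ≤ T W U V) : 0 ≤ tp T A D s U V := by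
  apply lim_one (y := T A U V)
  intro n hn
  obtain ⟨a, h1, h2, h3⟩ := exists_W ht.toThs n hn
  refine ⟨_, h2, h3, ?_⟩
  have h4 := h _ h1
  rw [w_T ht.hr.tri s] at h4
  exact_mod_cast h4

/-- the limit for `T(p,p,U)` -/
theorem tpp_lim (ht : Thr T l c A D s) {U : Cart X} (h : ∀ W, Ample W → 0 ≤ T W W U) : 0 ≤ tpp T A D s U := by
  apply lim_two (y := tp T A D s A U) (z := T A A U)
  intro n hn
  obtain ⟨a, h1, h2, h3⟩ := exists_W ht.toThs n hn
  refine ⟨_, h2, h3, ?_⟩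
  have h4 := h _ h1
  rw [w_TT ht.hr.tri s] at h4
  exact_mod_cast h4

theorem nf_ample (hX : IsVar X) {N : Cart X} (hN : Ample N) : Nf N := fun _ hA => ample_mul hX _ _ hA hN

theorem tri_rot (ht : Tri T) (A B C : Cart X) : T A B C = T C A B := by rw [ht.s23, ht.s12]

theorem tp_amp [CharZero k] [T0Space X.P] (h : Hyp X) (ht : Thr T l c A D s) {U V : Cart X} (hU : Ample U)
    (hV : Ample V) : 0 ≤ tp T A D s U V :=
  tp_lim ht fun _ hW => (pos_amp h ht.hr hW hU hV).le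

theorem tp_eff [CharZero k] [T0Space X.P] (h : Hyp X) (ht : Thr T l c A D s) {U E : Cart X} (hU : Ample U)
    (hE : Effective E) : 0 ≤ tp T A D s U E :=
  tp_lim ht fun _ hW => nn_eff h ht.hr (nf_ample h.var hW) hU hE

theorem tpp_eff [CharZero k] [T0Space X.P] (h : Hyp X) (ht : Thr T l c A D s) {E : Cart X}
    (hE : Effective E) : 0 ≤ tpp T A D s E :=
  tpp_lim ht fun _ hW => nn_eff h ht.hr (nf_ample h.var hW) hW hE

theorem tpp_amp [CharZero k] [T0Space X.P] (h : Hyp X) (ht : Thr T l c A D s) {U : Cart X}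
    (hU : Ample U) : 0 ≤ tpp T A D s U :=
  tpp_lim ht fun _ hW => (pos_amp h ht.hr hW hW hU).le

/-- `T(p,p,D) = - s T(p,p,A)` -/
theorem tppD (ht : Thr T l c A D s) : tpp T A D s D = - s * tpp T A D s A := by
  have h3 := ht.p3
  have hT := ht.hr.tri
  unfold tp3 at h3
  unfold tpp
  rw [hT.s23 D D A, hT.s12 D A D, hT.s23 A D A]
  linarith

/-- no double root -/
theorem no_double {s x y z w : ℝ} (hs : ∀ a b : ℝ, (∃ m : ℤ, a = m) → (∃ m : ℤ, b = m) → a + b * s = 0 → b = 0)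
    (hx : 0 < x) (hxi : ∃ m : ℤ, x = m) (hyi : ∃ m : ℤ, y = m) (hzi : ∃ m : ℤ, z = m) (hwi : ∃ m : ℤ, w = m)
    (h1 : z + 2 * s * y + s ^ 2 * x = 0) (h2 : w + 2 * s * z + s ^ 2 * y = 0) : False := by
  obtain ⟨mx, hmx⟩ := hxi
  obtain ⟨my, hmy⟩ := hyi
  obtain ⟨mz, hmz⟩ := hzi
  obtain ⟨mw, hmw⟩ := hwi
  have h3 : (x * w - y * z) + (2 * (x * z - y ^ 2)) * s = 0 := by
    have : (x * w - y * z) + (2 * (x * z - y ^ 2)) * s = x * (w + 2 * s * z + s ^ 2 * y) - y * (z + 2 * s * y + s ^ 2 * x) := by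
      ring
    rw [this, h1, h2]
    ring
  have h4 := hs _ _ ⟨mx * mw - my * mz, by rw [hmx, hmy, hmz, hmw]; push_cast; ring⟩
    ⟨2 * (mx * mz - my ^ 2), by rw [hmx, hmy, hmz]; push_cast; ring⟩ h3
  have h5 : (y + x * s) ^ 2 = 0 := by
    have : (y + x * s) ^ 2 = x * (z + 2 * s * y + s ^ 2 * x) - (x * z - y ^ 2) := by ring
    rw [this, h1]
    linarith
  have h6 : y + x * s = 0 := by
    exact pow_eq_zero_iff (two_ne_zero) |>.1 h5
  have h7 := hs _ _ ⟨my, hmy⟩ ⟨mx, hmx⟩ h6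
  linarith

theorem irr_int {s : ℝ} (hs : Irrational s) (a b : ℝ) (ha : ∃ m : ℤ, a = m) (hb : ∃ m : ℤ, b = m)
    (h : a + b * s = 0) : b = 0 := by
  obtain ⟨x, hx⟩ := ha
  obtain ⟨y, hy⟩ := hb
  by_contra hb0
  apply hs
  refine ⟨(-x : ℚ) / y, ?_⟩
  push_cast
  rw [← hx, ← hy]
  field_simp
  linarith

theorem tppA_pos [CharZero k] [T0Space X.P] (h : Hyp X) (ht : Thr T l c A D s) : 0 < tpp T A D s A := by
  rcases (tpp_amp h ht ht.hA).lt_or_eq with h1 | h1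
  · exact h1
  · exfalso
    have hT := ht.hr.tri
    have h2 := tppD ht
    rw [← h1, mul_zero] at h2
    unfold tpp at h1 h2
    rw [hT.s23 A D A, tri_rot hT D D A] at h1
    exact no_double (s := s) (x := T A A A) (y := T A A D) (z := T A D D) (w := T D D D) (irr_int ht.irr)
      (pos_amp h ht.hr ht.hA ht.hA ht.hA) (t_int ht.hr h.amp _ _ _) (t_int ht.hr h.amp _ _ _)
      (t_int ht.hr h.amp _ _ _) (t_int ht.hr h.amp _ _ _) h1.symm h2

/-- the values of `l` are rational -/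
theorem l_int [CharZero k] (h : Hyp X) (hr : RR T l c) (U : Cart X) : ∃ m : ℤ, 6 * l U = m := by
  obtain ⟨H, hH⟩ := h.amp
  obtain ⟨n₁, h1⟩ := hr.ev U H hH
  obtain ⟨n₂, h2⟩ := hr.ev 1 H hH
  obtain ⟨n, hn⟩ : ∃ n, n = max n₁ n₂ := ⟨_, rfl⟩
  have e1 := h1 n (by rw [hn]; exact le_max_left _ _)
  have e2 := h2 n (by rw [hn]; exact le_max_right _ _)
  unfold chi at e1 e2
  obtain ⟨t1, ht1⟩ := t_int hr h.amp (U * H ^ n) (U * H ^ n) (U * H ^ n)
  obtain ⟨t2, ht2⟩ := t_int hr h.amp (1 * H ^ n) (1 * H ^ n) (1 * H ^ n)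
  rw [ht1, hr.ladd] at e1
  rw [ht2, hr.ladd, hr.l_one] at e2
  refine ⟨6 * (h0 (U * H ^ n) 1 : ℤ) - 6 * (h0 (1 * H ^ n) 1 : ℤ) - t1 + t2, ?_⟩
  push_cast
  linarith

theorem lp_pos [CharZero k] (h : Hyp X) (ht : Thr T l c A D s) : 0 < lp l A D s := by
  have h1 : 0 ≤ lp l A D s := by
    apply lim_one (y := l A)
    intro n hn
    obtain ⟨a, h1, h2, h3⟩ := exists_W ht.toThs n hn
    refine ⟨_, h2, h3, ?_⟩
    have h4 := ht.lpos _ h1
    rw [w_l ht.hr s] at h4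
    exact_mod_cast h4.le
  rcases h1.lt_or_eq with h2 | h2
  · exact h2
  · exfalso
    unfold Pool.Agent.H39.TQ.lp at h2
    have h3 : 6 * l D + (6 * l A) * s = 0 := by linarith
    have h4 := irr_int ht.irr _ _ (l_int h ht.hr D) (l_int h ht.hr A) h3
    have h5 := ht.lpos A ht.hA
    linarith

end Pool.Agent.H36.TQ
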